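import Mathlib

set_option autoImplicit false

namespace Pool.Agent.H292R3.Tr

/-- The set `{x j, x (j+1), ..., x (j+k-1)}` of `k` consecutive vertices of the sequence `x`. -/
def window (k : ℕ) (x : ℕ → ℕ) (j : ℕ) : Finset ℕ :=
  (Finset.range k).image (fun t => x (j + t))

/-- `c` colours the edges of the complete `k`-uniform hypergraph on the ordered vertex set
`{0, ..., N-1}` (only the values of `c` on `k`-element subsets of `{0, ..., N-1}` matter).
`HasMonoPath k q n N c`: there are vertices `x 0 < x 1 < ... < x (n+k-2)` such that the `n` edges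
`{x j, ..., x (j+k-1)}`, `j < n`, all have the same colour, that is, there is a monochromatic
monotone path of length `n`. -/
def HasMonoPath (k q n N : ℕ) (c : Finset ℕ → Fin q) : Prop :=
  ∃ x : ℕ → ℕ, StrictMonoOn x (Set.Iio (n + k - 1)) ∧ (∀ a, a < n + k - 1 → x a < N) ∧
    ∃ i : Fin q, ∀ j, j < n → c (window k x j) = i

/-- The colouring `c` of the `k`-subsets of `{0, ..., N-1}` is transitive: whenever
`x 0 < ... < x k` and the edges `{x 0, ..., x (k-1)}` and `{x 1, ..., x k}` both have colour `i`,
every `k`-subset of `{x 0, ..., x k}` has colour `i`. -/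
def IsTransitive (k q N : ℕ) (c : Finset ℕ → Fin q) : Prop :=
  ∀ x : ℕ → ℕ, StrictMonoOn x (Set.Iio (k + 1)) → (∀ a, a < k + 1 → x a < N) →
    ∀ i : Fin q, c (window k x 0) = i → c (window k x 1) = i →
      ∀ e ⊆ window (k + 1) x 0, e.card = k → c e = i

/-- `N_k(q, n)`: the least `N` such that every colouring of the `k`-subsets of `{0, ..., N-1}` with
`q` colours contains a monochromatic monotone path of length `n`. -/
noncomputable def ramseyN (k q n : ℕ) : ℕ :=
  sInf {N : ℕ | ∀ c : Finset ℕ → Fin q, HasMonoPath k q n N c}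

/-- `N'_k(q, n)`: the least `N` such that every transitive colouring of the `k`-subsets of
`{0, ..., N-1}` with `q` colours contains a monochromatic monotone path of length `n`. -/
noncomputable def ramseyN' (k q n : ℕ) : ℕ :=
  sInf {N : ℕ | ∀ c : Finset ℕ → Fin q, IsTransitive k q N c → HasMonoPath k q n N c}

end Pool.Agent.H292R3.Tr
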