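import Pool.Agent.H292R3.TrLabels

set_option autoImplicit false

namespace Pool.Agent.H292R3.Tr

instance finLS (α : Type*) [Preorder α] [Finite α] : Finite (LowerSet α) :=
  Finite.of_injective (fun s : LowerSet α => (s : Set α)) SetLike.coe_injective

/-- number of lower sets of lower sets of the grid -/
noncomputable def K (q n : ℕ) : ℕ := Nat.card (LowerSet (LowerSet (Fin q → Fin n)))

theorem sort_four {w x y z : ℕ} (h1 : w < x) (h2 : x < y) (h3 : y < z) :
    Finset.sort ({w, x, y, z} : Finset ℕ) (· ≤ ·) = [w, x, y, z] := by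
  have hs : ({w, x, y, z} : Finset ℕ) = [w, x, y, z].toFinset := by
    ext a; simp
  rw [hs]
  apply (List.toFinset_sort (· ≤ ·) _).2
  · simp
    omega
  · simp
    omega

/-- a colouring with `K q n` vertices without monochromatic monotone path of length `n` -/
theorem exists_colouring (q n : ℕ) (hq : 0 < q) (hn : 0 < n) :
    ∃ c : Finset ℕ → Fin q, ¬ HasMonoPath 4 q n (K q n) c := by
  classical
  have : Nonempty (Fin q) := ⟨⟨0, hq⟩⟩
  let P := Fin q → Fin n
  have : Fintype (LinearExtension (LowerSet (LowerSet P))) :=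
    @Fintype.ofFinite _ (finLS (LowerSet P))
  have hcard : Fintype.card (LinearExtension (LowerSet (LowerSet P))) = K q n := by
    rw [← Nat.card_eq_fintype_card]; rfl
  let e := Fintype.orderIsoFinOfCardEq (LinearExtension (LowerSet (LowerSet P))) hcard
  let lab : Fin (K q n) → LowerSet (LowerSet P) := fun x => e x
  have hlab : ∀ x y : Fin (K q n), x < y → ¬ lab y ≤ lab x := by
    intro x y hxy h
    have h1 : toLinearExtension (lab y) ≤ toLinearExtension (lab x) :=
      (toLinearExtension (α := LowerSet (LowerSet P))).monotone h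
    have h2 : e y ≤ e x := h1
    exact absurd (e.le_iff_le.1 h2) (not_le.2 hxy)
  have hM : ∀ x y : Fin (K q n), ∃ F : LowerSet P, x < y → F ∈ lab y ∧ F ∉ lab x := by
    intro x y
    by_cases h : x < y
    · obtain ⟨F, h1, h2⟩ := Set.not_subset.1 (show ¬ ((lab y : Set (LowerSet P)) ⊆ lab x) from
        fun h3 => hlab x y h h3)
      exact ⟨F, fun _ => ⟨h1, h2⟩⟩
    · exact ⟨⊥, fun h' => absurd h' h⟩
  choose M' hM' using hM
  have hL : ∀ x y z : Fin (K q n), ∃ p : P, x < y → y < z → p ∈ M' y z ∧ p ∉ M' x y := by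
    intro x y z
    by_cases h : x < y ∧ y < z
    · have h1 : ¬ M' y z ≤ M' x y := by
        intro h2
        exact (hM' y z h.2).2 ((lab y).lower h2 (hM' x y h.1).1)
      obtain ⟨p, h2, h3⟩ := Set.not_subset.1 (show ¬ ((M' y z : Set P) ⊆ M' x y) from
        fun h3 => h1 h3)
      exact ⟨p, fun _ _ => ⟨h2, h3⟩⟩
    · exact ⟨fun _ => ⟨0, hn⟩, fun h1 h2 => absurd ⟨h1, h2⟩ h⟩
  choose L' hL' using hL
  have hcol : ∀ w x y z : Fin (K q n), ∃ i : Fin q, w < x → x < y → y < z →
      L' w x y i < L' x y z i := by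
    intro w x y z
    by_cases h : w < x ∧ x < y ∧ y < z
    · have h1 : ¬ L' x y z ≤ L' w x y := by
        intro h2
        exact (hL' x y z h.2.1 h.2.2).2 ((M' x y).lower h2 (hL' w x y h.1 h.2.1).1)
      rw [Pi.le_def] at h1
      push Not at h1
      obtain ⟨i, hi⟩ := h1
      exact ⟨i, fun _ _ _ => hi⟩
    · exact ⟨Classical.arbitrary _, fun h1 h2 h3 => absurd ⟨h1, h2, h3⟩ h⟩
  choose col hcol' using hcol
  have hK : 0 < K q n := by
    have : Nonempty (LowerSet (LowerSet P)) := ⟨⊥⟩
    exact Nat.card_pos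
  let toF : ℕ → Fin (K q n) := fun a => if h : a < K q n then ⟨a, h⟩ else ⟨0, hK⟩
  have htoF : ∀ a, (h : a < K q n) → toF a = ⟨a, h⟩ := fun a h => dif_pos h
  have hlt : ∀ a b, a < b → b < K q n → toF a < toF b := by
    intro a b hab hb
    rw [htoF a (hab.trans hb), htoF b hb]
    exact hab
  refine ⟨fun s => col (toF ((s.sort (· ≤ ·)).getD 0 0)) (toF ((s.sort (· ≤ ·)).getD 1 0))
    (toF ((s.sort (· ≤ ·)).getD 2 0)) (toF ((s.sort (· ≤ ·)).getD 3 0)), ?_⟩
  rintro ⟨x, hx1, hx2, i, hi⟩
  have hx1' : ∀ a b, a < b → b < n + 3 → x a < x b := by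
    intro a b hab hb
    exact hx1 (show a < n + 4 - 1 by omega) (show b < n + 4 - 1 by omega) hab
  have hx2' : ∀ a, a < n + 3 → x a < K q n := fun a ha => hx2 a (by omega)
  have step : ∀ j, j < n → (L' (toF (x j)) (toF (x (j + 1))) (toF (x (j + 2))) i).val <
      (L' (toF (x (j + 1))) (toF (x (j + 2))) (toF (x (j + 3))) i).val := by
    intro j hj
    have h1 := hi j hj
    rw [window_four] at h1
    simp only at h1
    rw [sort_four (hx1' j (j + 1) (by omega) (by omega)) (hx1' (j + 1) (j + 2) (by omega)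
      (by omega)) (hx1' (j + 2) (j + 3) (by omega) (by omega))] at h1
    simp only [List.getD_cons_zero, List.getD_cons_succ] at h1
    have h2 := hcol' (toF (x j)) (toF (x (j + 1))) (toF (x (j + 2))) (toF (x (j + 3)))
      (hlt _ _ (hx1' j (j + 1) (by omega) (by omega)) (hx2' _ (by omega)))
      (hlt _ _ (hx1' (j + 1) (j + 2) (by omega) (by omega)) (hx2' _ (by omega)))
      (hlt _ _ (hx1' (j + 2) (j + 3) (by omega) (by omega)) (hx2' _ (by omega)))
    rw [h1] at h2
    exact h2
  have hge : ∀ j, j ≤ n → j ≤ (L' (toF (x j)) (toF (x (j + 1))) (toF (x (j + 2))) i).val := by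
    intro j
    induction j with
    | zero => intro _; exact Nat.zero_le _
    | succ j ih =>
      intro hj
      have h1 := ih (by omega)
      have h2 := step j (by omega)
      exact Nat.succ_le_of_lt (lt_of_le_of_lt h1 h2)
  have h1 := hge n le_rfl
  have h2 := (L' (toF (x n)) (toF (x (n + 1))) (toF (x (n + 2))) i).2
  omega

/-- monotonicity in the number of vertices -/
theorem HasMonoPath.mono {k q n N N' : ℕ} {c : Finset ℕ → Fin q} (h : HasMonoPath k q n N c)
    (hN : N ≤ N') : HasMonoPath k q n N' c := by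
  obtain ⟨x, h1, h2, h3⟩ := h
  exact ⟨x, h1, fun a ha => (h2 a ha).trans_le hN, h3⟩

/-- `K q n + 1` vertices always suffice -/
theorem hasMonoPath_succ (q m : ℕ) (c : Finset ℕ → Fin q) :
    HasMonoPath 4 q (m + 3) (K q (m + 3) + 1) c := by
  by_contra hno
  have hinj := D_inj (m := m) hno
  have h1 := Nat.card_le_card_of_injective _ hinj
  rw [Nat.card_fin] at h1
  unfold K at h1
  omega

end Pool.Agent.H292R3.Tr
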