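import Pool.Agent.H292R3.TrDefs

set_option autoImplicit false

namespace Pool.Agent.H292R3.Tr

/-- colour-`i` path of length `m` ending with the triple `x < y < z` -/
def Path {q : ℕ} (c : Finset ℕ → Fin q) (i : Fin q) : ℕ → ℕ → ℕ → ℕ → Prop
  | 0, x, y, z => x < y ∧ y < z
  | (m + 1), x, y, z => x < y ∧ y < z ∧ ∃ w, w < x ∧ c {w, x, y, z} = i ∧ Path c i m w x y

theorem Path.lt {q : ℕ} {c : Finset ℕ → Fin q} {i : Fin q} {m x y z : ℕ}
    (h : Path c i m x y z) : x < y ∧ y < z := by
  cases m with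
  | zero => exact h
  | succ m => exact ⟨h.1, h.2.1⟩

theorem window_four (x : ℕ → ℕ) (j : ℕ) :
    window 4 x j = {x j, x (j + 1), x (j + 2), x (j + 3)} := by
  ext a
  simp only [window, Finset.mem_image, Finset.mem_range, Finset.mem_insert,
    Finset.mem_singleton]
  constructor
  · rintro ⟨t, ht, rfl⟩
    interval_cases t <;> simp
  · rintro (rfl | rfl | rfl | rfl)
    · exact ⟨0, by omega, rfl⟩
    · exact ⟨1, by omega, rfl⟩
    · exact ⟨2, by omega, rfl⟩
    · exact ⟨3, by omega, rfl⟩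

theorem Path.exists_seq {q : ℕ} {c : Finset ℕ → Fin q} {i : Fin q} {N : ℕ} :
    ∀ (m x y z : ℕ), z < N → Path c i m x y z →
      ∃ v : ℕ → ℕ, StrictMonoOn v (Set.Iio (m + 3)) ∧ (∀ a, a < m + 3 → v a < N) ∧
        v m = x ∧ v (m + 1) = y ∧ v (m + 2) = z ∧ ∀ j, j < m → c (window 4 v j) = i := by
  intro m
  induction m with
  | zero =>
    intro x y z hz h
    have hlt := h.lt
    refine ⟨fun t => if t = 0 then x else if t = 1 then y else z, ?_, ?_, by simp, by simp,
      by simp, fun j hj => absurd hj (by omega)⟩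
    · intro a ha b hb hab
      have ha' : a < 0 + 3 := ha
      have hb' : b < 0 + 3 := hb
      rcases (by omega : a = 0 ∧ b = 1 ∨ a = 0 ∧ b = 2 ∨ a = 1 ∧ b = 2) with
        ⟨rfl, rfl⟩ | ⟨rfl, rfl⟩ | ⟨rfl, rfl⟩ <;> simp <;> omega
    · intro a ha
      rcases (by omega : a = 0 ∨ a = 1 ∨ a = 2) with rfl | rfl | rfl <;> simp <;> omega
  | succ m ih =>
    intro x y z hz h
    obtain ⟨hxy, hyz, w, hw, hc, hp⟩ := h
    obtain ⟨v, hv1, hv2, hv3, hv4, hv5, hv6⟩ := ih w x y (by omega) hp
    refine ⟨fun t => if t < m + 3 then v t else z, ?_, ?_, ?_, ?_, ?_, ?_⟩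
    · intro a ha b hb hab
      have ha' : a < m + 1 + 3 := ha
      have hb' : b < m + 1 + 3 := hb
      simp only
      by_cases hb3 : b < m + 3
      · have ha3 : a < m + 3 := by omega
        rw [if_pos ha3, if_pos hb3]
        exact hv1 ha3 hb3 hab
      · have ha3 : a < m + 3 := by omega
        rw [if_pos ha3, if_neg hb3]
        have h1 : v a ≤ v (m + 2) := by
          rcases (by omega : a < m + 2 ∨ a = m + 2) with h | h
          · exact (hv1 ha3 (show m + 2 < m + 3 by omega) h).le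
          · rw [h]
        omega
    · intro a ha
      simp only
      by_cases ha3 : a < m + 3
      · rw [if_pos ha3]; exact hv2 a ha3
      · rw [if_neg ha3]; exact hz
    · simp only
      rw [if_pos (by omega)]; exact hv4
    · simp only
      rw [if_pos (by omega)]; exact hv5
    · simp only
      rw [if_neg (by omega)]
    · intro j hj
      rw [window_four]
      by_cases hj' : j < m
      · have := hv6 j hj'
        rw [window_four] at this
        rw [if_pos (by omega), if_pos (by omega), if_pos (by omega), if_pos (by omega)]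
        exact this
      · have hjm : j = m := by omega
        subst hjm
        rw [if_pos (by omega), if_pos (by omega), if_pos (by omega), if_neg (by omega), hv3, hv4,
          hv5]
        exact hc

variable {q n N : ℕ} {c : Finset ℕ → Fin q}

theorem no_path (hno : ¬ HasMonoPath 4 q n N c) {i : Fin q} {x y z : ℕ} (hz : z < N) :
    ¬ Path c i n x y z := by
  intro h
  obtain ⟨v, hv1, hv2, -, -, -, hv6⟩ := Path.exists_seq n x y z hz h
  exact hno ⟨v, hv1, hv2, i, hv6⟩

/-- length of the longest colour-`i` path ending in the triple -/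
noncomputable def Lnat (c : Finset ℕ → Fin q) (n : ℕ) (i : Fin q) (x y z : ℕ) : ℕ :=
  sSup {m : ℕ | m < n ∧ Path c i m x y z}

theorem Lnat_lt (hn : 0 < n) (i : Fin q) (x y z : ℕ) : Lnat c n i x y z < n := by
  unfold Lnat
  rcases Set.eq_empty_or_nonempty {m : ℕ | m < n ∧ Path c i m x y z} with h | h
  · rw [h, csSup_empty]; exact hn
  · have hb : BddAbove {m : ℕ | m < n ∧ Path c i m x y z} := ⟨n, fun m hm => hm.1.le⟩
    exact (Nat.sSup_mem h hb).1

theorem Lnat_succ (hn : 0 < n) (hno : ¬ HasMonoPath 4 q n N c) {i : Fin q} {w x y z : ℕ}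
    (hwx : w < x) (hxy : x < y) (hyz : y < z) (hz : z < N) (hc : c {w, x, y, z} = i) :
    Lnat c n i w x y < Lnat c n i x y z := by
  have hb1 : BddAbove {m : ℕ | m < n ∧ Path c i m w x y} := ⟨n, fun m hm => hm.1.le⟩
  have hb2 : BddAbove {m : ℕ | m < n ∧ Path c i m x y z} := ⟨n, fun m hm => hm.1.le⟩
  have hne : {m : ℕ | m < n ∧ Path c i m w x y}.Nonempty := ⟨0, hn, hwx, hxy⟩
  have h1 := Nat.sSup_mem hne hb1
  have h2 : Path c i (Lnat c n i w x y + 1) x y z := ⟨hxy, hyz, w, hwx, hc, h1.2⟩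
  have h3 : Lnat c n i w x y + 1 < n := by
    have h4 : Lnat c n i w x y < n := h1.1
    rcases (by omega : Lnat c n i w x y + 1 < n ∨ Lnat c n i w x y + 1 = n) with h | h
    · exact h
    · rw [h] at h2
      exact absurd h2 (no_path hno hz)
  exact Nat.lt_of_succ_le (le_csSup hb2 ⟨h3, h2⟩)

/-- the vector of the longest path lengths -/
noncomputable def L (c : Finset ℕ → Fin q) (m : ℕ) (x y z : ℕ) : Fin q → Fin (m + 3) :=
  fun i => ⟨Lnat c (m + 3) i x y z, Lnat_lt (by omega) i x y z⟩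

/-- second level label -/
noncomputable def M (c : Finset ℕ → Fin q) (m : ℕ) (x y : ℕ) : LowerSet (Fin q → Fin (m + 3)) where
  carrier := {p | ∃ w, w < x ∧ p ≤ L c m w x y}
  lower' := by
    rintro a b hba ⟨w, hw, ha⟩
    exact ⟨w, hw, hba.trans ha⟩

/-- third level label -/
noncomputable def D (c : Finset ℕ → Fin q) (m : ℕ) (x : ℕ) :
    LowerSet (LowerSet (Fin q → Fin (m + 3))) where
  carrier := {F | ∃ w, w < x ∧ F ≤ M c m w x}
  lower' := by
    rintro a b hba ⟨w, hw, ha⟩
    exact ⟨w, hw, hba.trans ha⟩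

variable {m : ℕ}

theorem L_lt (hno : ¬ HasMonoPath 4 q (m + 3) N c) {w x y z : ℕ} (hwx : w < x) (hxy : x < y)
    (hyz : y < z) (hz : z < N) : L c m w x y (c {w, x, y, z}) < L c m x y z (c {w, x, y, z}) := by
  rw [Fin.lt_def]
  exact Lnat_succ (by omega) hno hwx hxy hyz hz rfl

theorem L_mem {w x y : ℕ} (hwx : w < x) : L c m w x y ∈ M c m x y := ⟨w, hwx, le_rfl⟩

theorem L_not_mem (hno : ¬ HasMonoPath 4 q (m + 3) N c) {x y z : ℕ} (hxy : x < y)
    (hyz : y < z) (hz : z < N) : L c m x y z ∉ M c m x y := by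
  rintro ⟨w, hw, hle⟩
  exact absurd (hle (c {w, x, y, z})) (not_le.2 (L_lt hno hw hxy hyz hz))

theorem M_mem {w x : ℕ} (hwx : w < x) : M c m w x ∈ D c m x := ⟨w, hwx, le_rfl⟩

theorem M_not_mem (hno : ¬ HasMonoPath 4 q (m + 3) N c) {x y : ℕ} (hxy : x < y) (hy : y < N) :
    M c m x y ∉ D c m x := by
  rintro ⟨w, hw, hle⟩
  exact L_not_mem hno hw hxy hy (hle (L_mem hw))

theorem D_inj (hno : ¬ HasMonoPath 4 q (m + 3) N c) :
    Function.Injective (fun x : Fin N => D c m x) := by
  intro x y hxy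
  by_contra hne
  have hxy' : D c m x = D c m y := hxy
  rcases lt_or_gt_of_ne hne with h | h
  · have h1 := M_mem (c := c) (m := m) (w := x) (x := y) h
    have h2 := M_not_mem (m := m) hno (x := x) (y := y) h y.2
    rw [← hxy'] at h1
    exact h2 h1
  · have h1 := M_mem (c := c) (m := m) (w := y) (x := x) h
    have h2 := M_not_mem (m := m) hno (x := y) (y := x) h x.2
    rw [hxy'] at h1
    exact h2 h1

theorem lt_of_D_le (hno : ¬ HasMonoPath 4 q (m + 3) N c) {x y : ℕ} (hx : x < N)
    (h : D c m x ≤ D c m y) (hne : D c m x ≠ D c m y) : x < y := by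
  rcases lt_trichotomy x y with h1 | h1 | h1
  · exact h1
  · exact absurd (by rw [h1]) hne
  · exact absurd (h (M_mem h1)) (M_not_mem hno h1 hx)

end Pool.Agent.H292R3.Tr
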