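import Pool.Agent.H292R3.TrSets

set_option autoImplicit false

namespace Pool.Agent.H292R3.Tr

variable {q m N : ℕ} {c : Finset ℕ → Fin q}

theorem trans5 (htr : IsTransitive 4 q N c) {a b x d e : ℕ} (hab : a < b) (hbx : b < x)
    (hxd : x < d) (hde : d < e) (he : e < N) {i : Fin q} (h1 : c {a, b, x, d} = i)
    (h2 : c {b, x, d, e} = i) : c {a, b, x, e} = i ∧ c {a, x, d, e} = i := by
  let v : ℕ → ℕ := fun t => if t = 0 then a else if t = 1 then b else if t = 2 then x else
    if t = 3 then d else e
  have v0 : v 0 = a := rfl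
  have v1 : v 1 = b := rfl
  have v2 : v 2 = x := rfl
  have v3 : v 3 = d := rfl
  have v4 : v 4 = e := rfl
  have hmono : StrictMonoOn v (Set.Iio (4 + 1)) := by
    intro s hs t ht hst
    have hs' : s < 5 := hs
    have ht' : t < 5 := ht
    interval_cases s <;> interval_cases t <;> simp only [v0, v1, v2, v3, v4] <;> omega
  have hN : ∀ t, t < 4 + 1 → v t < N := by
    intro t ht
    have ht' : t < 5 := ht
    interval_cases t <;> simp only [v0, v1, v2, v3, v4] <;> omega
  have hw0 : c (window 4 v 0) = i := by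
    rw [window_four]; simp only [zero_add, v0, v1, v2, v3]; exact h1
  have hw1 : c (window 4 v 1) = i := by
    rw [window_four]; simp only [show 1 + 1 = 2 from rfl, show 1 + 2 = 3 from rfl,
      show 1 + 3 = 4 from rfl, v1, v2, v3, v4]; exact h2
  have hmem : ∀ t, t < 5 → v t ∈ window (4 + 1) v 0 := by
    intro t ht
    simp only [window, Finset.mem_image, Finset.mem_range]
    exact ⟨t, ht, by rw [zero_add]⟩
  have hcard : ∀ {s t u w : ℕ}, s < t → t < u → u < w → ({s, t, u, w} : Finset ℕ).card = 4 := by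
    intro s t u w h1 h2 h3
    rw [Finset.card_insert_of_notMem, Finset.card_insert_of_notMem, Finset.card_insert_of_notMem,
      Finset.card_singleton] <;> simp <;> omega
  refine ⟨htr v hmono hN i hw0 hw1 _ ?_ (hcard hab hbx (hxd.trans hde)),
    htr v hmono hN i hw0 hw1 _ ?_ (hcard (hab.trans hbx) hxd hde)⟩
  · intro y hy
    simp only [Finset.mem_insert, Finset.mem_singleton] at hy
    rcases hy with rfl | rfl | rfl | rfl
    · exact hmem 0 (by omega)
    · exact hmem 1 (by omega)
    · exact hmem 2 (by omega)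
    · exact hmem 4 (by omega)
  · intro y hy
    simp only [Finset.mem_insert, Finset.mem_singleton] at hy
    rcases hy with rfl | rfl | rfl | rfl
    · exact hmem 0 (by omega)
    · exact hmem 2 (by omega)
    · exact hmem 3 (by omega)
    · exact hmem 4 (by omega)

theorem case1 (hno : ¬ HasMonoPath 4 q (m + 3) N c) (htr : IsTransitive 4 q N c)
    {i j : Fin q} (hij : i ≠ j) {xa xb xc xd xe : ℕ} (hab : xa < xb) (hbc : xb < xc)
    (hcd : xc < xd) (hde : xd < xe) (he : xe < N)
    (hA : D c m xa = vA i j) (hB : D c m xb = vB i j) (hC : D c m xc = vC i j)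
    (hD : D c m xd = vD i j) (hE : D c m xe = vE i j)
    (hs : ∀ t, t ≠ i → (L c m xc xd xe t).val = 0) : False := by
  -- the pair labels
  have m1 : sA i j ≤ M c m xa xb := by
    have h1 := M_mem (c := c) (m := m) hab
    have h2 := M_not_mem (m := m) hno hab (by omega)
    rw [hB] at h1; rw [hA] at h2
    exact f1 hij h1 h2
  have m2 : M c m xb xc ≤ sB i j ∧ sB i j ≤ M c m xb xc := by
    have h1 := M_mem (c := c) (m := m) hbc
    have h2 := M_not_mem (m := m) hno hbc (by omega)
    rw [hC] at h1; rw [hB] at h2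
    exact f2 hij h1 h2
  have m3 : M c m xc xd ≤ sC i j := by
    have h1 := M_mem (c := c) (m := m) hcd
    have h2 := M_not_mem (m := m) hno hcd (by omega)
    rw [hD] at h1; rw [hC] at h2
    exact f3 h1 h2
  have m4 : M c m xc xe ≤ sG i j := by
    have h1 := M_mem (c := c) (m := m) (hcd.trans hde)
    rw [hE] at h1
    exact f4 h1
  -- the triple labels
  have p1 := (mem_sB hij).1 (m2.1 (L_mem (c := c) (m := m) (y := xc) hab))
  have p2 : L c m xa xb xc ∉ sA i j := fun h =>
    L_not_mem (m := m) hno hab hbc (by omega) (m1 h)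
  have r1 := (mem_sC hij).1 (m3 (L_mem (c := c) (m := m) (y := xd) hbc))
  have r2 : L c m xb xc xd ∉ sB i j := fun h =>
    L_not_mem (m := m) hno hbc hcd (by omega) (m2.2 h)
  have u1 := (mem_sG hij).1 (m4 (L_mem (c := c) (m := m) (y := xe) hbc))
  have u2 : L c m xb xc xe ∉ sB i j := fun h =>
    L_not_mem (m := m) hno hbc (hcd.trans hde) (by omega) (m2.2 h)
  rw [mem_sA hij] at p2
  rw [mem_sB hij] at r2 u2
  have p3 : 1 ≤ (L c m xa xb xc j).val := by
    by_contra h
    rcases p1 with p1 | p1
    · exact p2 p1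
    · exact p2 ⟨by omega, by omega, p1.2.2⟩
  have r3 : 1 ≤ (L c m xb xc xd j).val := by
    by_contra h
    exact r2 (Or.inl ⟨by omega, by omega, r1.2.2⟩)
  have u3 : (L c m xb xc xe i).val ≤ 0 := by
    rcases u1 with u1 | u1
    · exact absurd (Or.inl u1) u2
    · exact u1.1
  -- the colours
  have c1 : c {xa, xb, xc, xd} = i := by
    have h := L_lt (m := m) hno hab hbc hcd (by omega : xd < N)
    rw [Fin.lt_def] at h
    by_contra hne
    by_cases hj : c {xa, xb, xc, xd} = j
    · rw [hj] at h
      have := r1.2.1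
      omega
    · have := r1.2.2 _ hne hj
      omega
  have c2 : c {xb, xc, xd, xe} = i := by
    have h := L_lt (m := m) hno hbc hcd hde he
    rw [Fin.lt_def] at h
    by_contra hne
    have := hs _ hne
    omega
  have c3 := (trans5 htr hab hbc hcd hde he c1 c2).1
  have h := L_lt (m := m) hno hab hbc (hcd.trans hde) he
  rw [c3, Fin.lt_def] at h
  omega

theorem case2 (hno : ¬ HasMonoPath 4 q (m + 3) N c) (htr : IsTransitive 4 q N c)
    {i j : Fin q} (hij : i ≠ j) {xe xd xf xg xh : ℕ} (hed : xe < xd) (hdf : xd < xf)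
    (hfg : xf < xg) (hgh : xg < xh) (hh : xh < N)
    (hE : D c m xe = vE i j) (hD : D c m xd = vD i j) (hF : D c m xf = vF i j)
    (hG : D c m xg = vG i j) (hH : D c m xh = vH i j)
    (hs : ∀ t, t ≠ i → (L c m xe xd xf t).val = 0) : False := by
  have m1 : (0 : Fin q → Fin (m + 3)) ∈ M c m xe xd := by
    have h2 := M_not_mem (m := m) hno hed (by omega)
    rw [hE] at h2
    exact f9 h2
  have m2 : sG i j ≤ M c m xd xf := by
    have h1 := M_mem (c := c) (m := m) hdf
    have h2 := M_not_mem (m := m) hno hdf (by omega)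
    rw [hF] at h1; rw [hD] at h2
    exact (f5 hij h1 h2).2
  have m3 : M c m xf xg ≤ sH i j := by
    have h1 := M_mem (c := c) (m := m) hfg
    have h2 := M_not_mem (m := m) hno hfg (by omega)
    rw [hG] at h1; rw [hF] at h2
    exact f6 h1 h2
  have m5 : sC i j ≤ M c m xe xf := by
    have h1 := M_mem (c := c) (m := m) (hed.trans hdf)
    have h2 := M_not_mem (m := m) hno (hed.trans hdf) (by omega)
    rw [hF] at h1; rw [hE] at h2
    exact f7 hij h1 h2
  have m6 : M c m xg xh ≤ sK i j := by
    have h1 := M_mem (c := c) (m := m) hgh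
    have h2 := M_not_mem (m := m) hno hgh (by omega)
    rw [hH] at h1; rw [hG] at h2
    exact f8 h1 h2
  -- the triple labels
  have s1 : 1 ≤ (L c m xe xd xf i).val := by
    by_contra h
    have h1 : L c m xe xd xf = 0 := by
      funext t
      by_cases ht : t = i
      · rw [ht]; apply Fin.ext; simp only [Pi.zero_apply, Fin.val_zero]; omega
      · apply Fin.ext; rw [hs t ht]; simp
    have h2 := L_not_mem (m := m) hno hed hdf (by omega : xf < N)
    rw [h1] at h2
    exact h2 m1
  have r1 := (mem_sH hij).1 (m3 (L_mem (c := c) (m := m) (y := xg) hdf))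
  have r2 : L c m xd xf xg ∉ sG i j := fun h =>
    L_not_mem (m := m) hno hdf hfg (by omega) (m2 h)
  rw [mem_sG hij] at r2
  have r3 : (L c m xd xf xg i).val ≤ 1 ∧ (L c m xd xf xg j).val ≤ 1 ∧
      ∀ t, t ≠ i → t ≠ j → (L c m xd xf xg t).val = 0 := by
    rcases r1 with r1 | r1
    · exact absurd (Or.inr r1) r2
    · exact r1
  have r4 : 1 ≤ (L c m xd xf xg i).val := by
    by_contra h
    exact r2 (Or.inr ⟨by omega, by omega, r3.2.2⟩)
  have v1 := (mem_sK hij).1 (m6 (L_mem (c := c) (m := m) (y := xh) hfg))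
  have w1 := (mem_sH hij).1 (m3 (L_mem (c := c) (m := m) (y := xg) (hed.trans hdf)))
  have w2 : L c m xe xf xg ∉ sC i j := fun h =>
    L_not_mem (m := m) hno (hed.trans hdf) hfg (by omega) (m5 h)
  rw [mem_sC hij] at w2
  have w3 : 2 ≤ (L c m xe xf xg j).val := by
    by_contra h
    rcases w1 with w1 | w1
    · exact w2 ⟨by omega, by omega, w1.2.2⟩
    · exact w2 w1
  -- the colours
  have c1 : c {xe, xd, xf, xg} = j := by
    have h := L_lt (m := m) hno hed hdf hfg (by omega : xg < N)
    rw [Fin.lt_def] at h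
    by_contra hne
    by_cases hi : c {xe, xd, xf, xg} = i
    · rw [hi] at h
      omega
    · have := r3.2.2 _ hi hne
      omega
  have c2 : c {xd, xf, xg, xh} = j := by
    have h := L_lt (m := m) hno hdf hfg hgh hh
    rw [Fin.lt_def] at h
    by_contra hne
    by_cases hi : c {xd, xf, xg, xh} = i
    · rw [hi] at h
      omega
    · have := v1.2.2 _ hi hne
      omega
  have c3 := (trans5 htr hed hdf hfg hgh hh c1 c2).2
  have h := L_lt (m := m) hno (hed.trans hdf) hfg hgh hh
  rw [c3, Fin.lt_def] at h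
  omega

end Pool.Agent.H292R3.Tr
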