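import Pool.Agent.H292R3.TrLabels

set_option autoImplicit false

namespace Pool.Agent.H292R3.Tr

open Classical in
/-- The point with coordinates `a` at `i`, `b` at `j` and `0` elsewhere. -/
noncomputable def pt {q m : ℕ} (i j : Fin q) (a b : Fin (m + 3)) : Fin q → Fin (m + 3) :=
  fun t => if t = i then a else if t = j then b else 0

variable {q m : ℕ}

theorem le_pt {i j : Fin q} (hij : i ≠ j) {a b : Fin (m + 3)} {p : Fin q → Fin (m + 3)} :
    p ≤ pt i j a b ↔ p i ≤ a ∧ p j ≤ b ∧ ∀ t, t ≠ i → t ≠ j → p t = 0 := by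
  constructor
  · intro h
    refine ⟨?_, ?_, ?_⟩
    · have := h i; simpa [pt] using this
    · have := h j; simpa [pt, hij.symm] using this
    · intro t h1 h2
      have := h t
      simp only [pt, if_neg h1, if_neg h2] at this
      exact le_antisymm this (Fin.zero_le _)
  · rintro ⟨h1, h2, h3⟩ t
    simp only [pt]
    split_ifs with h4 h5
    · rw [h4]; exact h1
    · rw [h5]; exact h2
    · rw [h3 t h4 h5]

theorem pt_swap {i j : Fin q} (hij : i ≠ j) (a b : Fin (m + 3)) : pt i j a b = pt j i b a := by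
  funext t
  simp only [pt]
  split_ifs with h1 h2 h2
  · exact absurd (h1.symm.trans h2) hij
  · rfl
  · rfl
  · rfl

/-- `A i j = {p ≤ 2 e_i}` -/
noncomputable def sA (i j : Fin q) : LowerSet (Fin q → Fin (m + 3)) := LowerSet.Iic (pt i j 2 0)
/-- `B i j = {p ≤ 2 e_i} ∪ {p ≤ e_j}` -/
noncomputable def sB (i j : Fin q) : LowerSet (Fin q → Fin (m + 3)) :=
  LowerSet.Iic (pt i j 2 0) ⊔ LowerSet.Iic (pt i j 0 1)
/-- `C = {p ≤ e_i + e_j}` -/
noncomputable def sC (i j : Fin q) : LowerSet (Fin q → Fin (m + 3)) := LowerSet.Iic (pt i j 1 1)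
/-- `G = {p ≤ 2 e_i} ∪ {p ≤ 2 e_j}` -/
noncomputable def sG (i j : Fin q) : LowerSet (Fin q → Fin (m + 3)) :=
  LowerSet.Iic (pt i j 2 0) ⊔ LowerSet.Iic (pt i j 0 2)
/-- `H = {p ≤ 2 e_j} ∪ {p ≤ e_i + e_j}` -/
noncomputable def sH (i j : Fin q) : LowerSet (Fin q → Fin (m + 3)) :=
  LowerSet.Iic (pt i j 0 2) ⊔ LowerSet.Iic (pt i j 1 1)
/-- `K = {p ≤ e_i + 2 e_j}` -/
noncomputable def sK (i j : Fin q) : LowerSet (Fin q → Fin (m + 3)) := LowerSet.Iic (pt i j 1 2)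

theorem sC_swap {i j : Fin q} (hij : i ≠ j) : sC (m := m) i j = sC j i := by
  simp only [sC, pt_swap hij]

theorem sG_swap {i j : Fin q} (hij : i ≠ j) : sG (m := m) i j = sG j i := by
  simp only [sG, pt_swap hij, sup_comm]

theorem le_pt' {i j : Fin q} (hij : i ≠ j) {a b : Fin (m + 3)} {p : Fin q → Fin (m + 3)} :
    p ≤ pt i j a b ↔ (p i).val ≤ a.val ∧ (p j).val ≤ b.val ∧
      ∀ t, t ≠ i → t ≠ j → (p t).val = 0 := by
  rw [le_pt hij]
  simp only [Fin.le_def, Fin.ext_iff, Fin.val_zero]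

theorem val1 : (1 : Fin (m + 3)).val = 1 := Fin.val_one _
theorem val2 : (2 : Fin (m + 3)).val = 2 := Fin.val_two

/-- membership conditions -/
theorem mem_sA {i j : Fin q} (hij : i ≠ j) {p : Fin q → Fin (m + 3)} :
    p ∈ sA i j ↔ (p i).val ≤ 2 ∧ (p j).val ≤ 0 ∧ ∀ t, t ≠ i → t ≠ j → (p t).val = 0 := by
  simp only [sA, LowerSet.mem_Iic_iff, le_pt' hij, val2, Fin.val_zero]

theorem mem_sB {i j : Fin q} (hij : i ≠ j) {p : Fin q → Fin (m + 3)} :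
    p ∈ sB i j ↔ ((p i).val ≤ 2 ∧ (p j).val ≤ 0 ∧ ∀ t, t ≠ i → t ≠ j → (p t).val = 0) ∨
      ((p i).val ≤ 0 ∧ (p j).val ≤ 1 ∧ ∀ t, t ≠ i → t ≠ j → (p t).val = 0) := by
  simp only [sB, LowerSet.mem_sup_iff, LowerSet.mem_Iic_iff, le_pt' hij, val1, val2, Fin.val_zero]

theorem mem_sC {i j : Fin q} (hij : i ≠ j) {p : Fin q → Fin (m + 3)} :
    p ∈ sC i j ↔ (p i).val ≤ 1 ∧ (p j).val ≤ 1 ∧ ∀ t, t ≠ i → t ≠ j → (p t).val = 0 := by
  simp only [sC, LowerSet.mem_Iic_iff, le_pt' hij, val1]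

theorem mem_sG {i j : Fin q} (hij : i ≠ j) {p : Fin q → Fin (m + 3)} :
    p ∈ sG i j ↔ ((p i).val ≤ 2 ∧ (p j).val ≤ 0 ∧ ∀ t, t ≠ i → t ≠ j → (p t).val = 0) ∨
      ((p i).val ≤ 0 ∧ (p j).val ≤ 2 ∧ ∀ t, t ≠ i → t ≠ j → (p t).val = 0) := by
  simp only [sG, LowerSet.mem_sup_iff, LowerSet.mem_Iic_iff, le_pt' hij, val2, Fin.val_zero]

theorem mem_sH {i j : Fin q} (hij : i ≠ j) {p : Fin q → Fin (m + 3)} :
    p ∈ sH i j ↔ ((p i).val ≤ 0 ∧ (p j).val ≤ 2 ∧ ∀ t, t ≠ i → t ≠ j → (p t).val = 0) ∨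
      ((p i).val ≤ 1 ∧ (p j).val ≤ 1 ∧ ∀ t, t ≠ i → t ≠ j → (p t).val = 0) := by
  simp only [sH, LowerSet.mem_sup_iff, LowerSet.mem_Iic_iff, le_pt' hij, val1, val2, Fin.val_zero]

theorem mem_sK {i j : Fin q} (hij : i ≠ j) {p : Fin q → Fin (m + 3)} :
    p ∈ sK i j ↔ (p i).val ≤ 1 ∧ (p j).val ≤ 2 ∧ ∀ t, t ≠ i → t ≠ j → (p t).val = 0 := by
  simp only [sK, LowerSet.mem_Iic_iff, le_pt' hij, val1, val2]

theorem pt_le {i j : Fin q} (_hij : i ≠ j) {a b : Fin (m + 3)} {p : Fin q → Fin (m + 3)}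
    (h1 : a.val ≤ (p i).val) (h2 : b.val ≤ (p j).val) : pt i j a b ≤ p := by
  intro t
  simp only [pt]
  split_ifs with h4 h5
  · rw [h4]; exact h1
  · rw [h5]; exact h2
  · exact Fin.zero_le _

theorem exists_of_not_le {X Y : LowerSet (Fin q → Fin (m + 3))} (h : ¬ X ≤ Y) :
    ∃ p ∈ X, p ∉ Y := by
  by_contra hne
  push Not at hne
  exact h hne

/-- vertex labels -/
noncomputable def vC (i j : Fin q) : LowerSet (LowerSet (Fin q → Fin (m + 3))) :=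
  LowerSet.Iic (sB i j) ⊔ LowerSet.Iic (sB j i)
noncomputable def vD (i j : Fin q) : LowerSet (LowerSet (Fin q → Fin (m + 3))) :=
  LowerSet.Iic (sB i j) ⊔ LowerSet.Iic (sB j i) ⊔ LowerSet.Iic (sC i j)
noncomputable def vE (i j : Fin q) : LowerSet (LowerSet (Fin q → Fin (m + 3))) :=
  LowerSet.Iic (sG i j)
noncomputable def vA (i j : Fin q) : LowerSet (LowerSet (Fin q → Fin (m + 3))) :=
  LowerSet.Iic (sB j i)
noncomputable def vB (i j : Fin q) : LowerSet (LowerSet (Fin q → Fin (m + 3))) :=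
  LowerSet.Iic (sA i j) ⊔ LowerSet.Iic (sB j i)
noncomputable def vF (i j : Fin q) : LowerSet (LowerSet (Fin q → Fin (m + 3))) :=
  LowerSet.Iic (sC i j) ⊔ LowerSet.Iic (sG i j)
noncomputable def vG (i j : Fin q) : LowerSet (LowerSet (Fin q → Fin (m + 3))) :=
  LowerSet.Iic (sG i j) ⊔ LowerSet.Iic (sH i j)
noncomputable def vH (i j : Fin q) : LowerSet (LowerSet (Fin q → Fin (m + 3))) :=
  LowerSet.Iic (sG i j) ⊔ LowerSet.Iic (sK i j)

theorem vC_swap {i j : Fin q} : vC (m := m) i j = vC j i := by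
  simp only [vC, sup_comm]

theorem vD_swap {i j : Fin q} (hij : i ≠ j) : vD (m := m) i j = vD j i := by
  simp only [vD, sC_swap hij]
  rw [sup_comm (LowerSet.Iic (sB i j)) (LowerSet.Iic (sB j i))]

theorem vE_swap {i j : Fin q} (hij : i ≠ j) : vE (m := m) i j = vE j i := by
  simp only [vE, sG_swap hij]

theorem vF_swap {i j : Fin q} (hij : i ≠ j) : vF (m := m) i j = vF j i := by
  simp only [vF, sG_swap hij, sC_swap hij]

variable {i j : Fin q} {X : LowerSet (Fin q → Fin (m + 3))}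

theorem f1 (hij : i ≠ j) (h1 : X ∈ vB i j) (h2 : X ∉ vA i j) : sA i j ≤ X := by
  simp only [vB, vA, LowerSet.mem_sup_iff, LowerSet.mem_Iic_iff] at h1 h2
  have h3 : X ≤ sA i j := h1.resolve_right h2
  obtain ⟨p, hp, hp2⟩ := exists_of_not_le h2
  have h4 := (mem_sA hij).1 (h3 hp)
  rw [mem_sB hij.symm] at hp2
  have h5 : ¬ ((p i).val ≤ 1) := by
    intro h
    exact hp2 (Or.inr ⟨h4.2.1, h, fun t h6 h7 => h4.2.2 t h7 h6⟩)
  have h6 : pt i j 2 0 ∈ X := X.lower (pt_le hij (by rw [val2]; omega)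
    (by rw [Fin.val_zero]; omega)) hp
  exact LowerSet.Iic_le.2 h6

theorem f2 (hij : i ≠ j) (h1 : X ∈ vC i j) (h2 : X ∉ vB i j) : X ≤ sB i j ∧ sB i j ≤ X := by
  simp only [vB, vC, LowerSet.mem_sup_iff, LowerSet.mem_Iic_iff, not_or] at h1 h2
  have h3 : X ≤ sB i j := h1.resolve_right h2.2
  refine ⟨h3, ?_⟩
  obtain ⟨p, hp, hp2⟩ := exists_of_not_le h2.1
  obtain ⟨r, hr, hr2⟩ := exists_of_not_le h2.2
  have h4 := (mem_sB hij).1 (h3 hp)
  have h5 := (mem_sB hij).1 (h3 hr)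
  rw [mem_sA hij] at hp2
  rw [mem_sB hij.symm] at hr2
  have h6 := h4.resolve_left hp2
  have h7 : ¬ ((p j).val ≤ 0) := by
    intro h
    exact hp2 ⟨by omega, h, h6.2.2⟩
  have h8 : pt i j 0 1 ∈ X := X.lower (pt_le hij (by rw [Fin.val_zero]; omega)
    (by rw [val1]; omega)) hp
  have h9 : ¬ ((r i).val ≤ 1) := by
    intro h
    rcases h5 with h5 | h5
    · exact hr2 (Or.inr ⟨h5.2.1, h, fun t h6 h7 => h5.2.2 t h7 h6⟩)
    · exact hr2 (Or.inl ⟨by omega, h5.1, fun t h6 h7 => h5.2.2 t h7 h6⟩)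
  have h10 : pt i j 2 0 ∈ X := X.lower (pt_le hij (by rw [val2]; omega)
    (by rw [Fin.val_zero]; omega)) hr
  exact sup_le (LowerSet.Iic_le.2 h10) (LowerSet.Iic_le.2 h8)

theorem f3 (h1 : X ∈ vD i j) (h2 : X ∉ vC i j) : X ≤ sC i j := by
  simp only [vD, vC, LowerSet.mem_sup_iff, LowerSet.mem_Iic_iff] at h1 h2
  exact h1.resolve_left h2

theorem f4 (h1 : X ∈ vE i j) : X ≤ sG i j := by
  simpa only [vE, LowerSet.mem_Iic_iff] using h1

theorem f5 (hij : i ≠ j) (h1 : X ∈ vF i j) (h2 : X ∉ vD i j) : X ≤ sG i j ∧ sG i j ≤ X := by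
  simp only [vF, vD, LowerSet.mem_sup_iff, LowerSet.mem_Iic_iff, not_or] at h1 h2
  have h3 : X ≤ sG i j := h1.resolve_left h2.2
  refine ⟨h3, ?_⟩
  obtain ⟨p, hp, hp2⟩ := exists_of_not_le h2.1.1
  obtain ⟨r, hr, hr2⟩ := exists_of_not_le h2.1.2
  have h4 := (mem_sG hij).1 (h3 hp)
  have h5 := (mem_sG hij).1 (h3 hr)
  rw [mem_sB hij] at hp2
  rw [mem_sB hij.symm] at hr2
  push Not at hp2 hr2
  have h6 : 2 ≤ (p j).val := by
    by_contra h
    rcases h4 with h4 | h4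
    · obtain ⟨t, ht1, ht2, ht3⟩ := hp2.1 h4.1 h4.2.1
      exact ht3 (h4.2.2 t ht1 ht2)
    · obtain ⟨t, ht1, ht2, ht3⟩ := hp2.2 h4.1 (by omega)
      exact ht3 (h4.2.2 t ht1 ht2)
  have h7 : 2 ≤ (r i).val := by
    by_contra h
    rcases h5 with h5 | h5
    · obtain ⟨t, ht1, ht2, ht3⟩ := hr2.2 h5.2.1 (by omega)
      exact ht3 (h5.2.2 t ht2 ht1)
    · obtain ⟨t, ht1, ht2, ht3⟩ := hr2.1 h5.2.1 h5.1
      exact ht3 (h5.2.2 t ht2 ht1)
  have h8 : pt i j 2 0 ∈ X := X.lower (pt_le hij (by rw [val2]; omega)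
    (by rw [Fin.val_zero]; omega)) hr
  have h9 : pt i j 0 2 ∈ X := X.lower (pt_le hij (by rw [Fin.val_zero]; omega)
    (by rw [val2]; omega)) hp
  exact sup_le (LowerSet.Iic_le.2 h8) (LowerSet.Iic_le.2 h9)

theorem f6 (h1 : X ∈ vG i j) (h2 : X ∉ vF i j) : X ≤ sH i j := by
  simp only [vG, vF, LowerSet.mem_sup_iff, LowerSet.mem_Iic_iff, not_or] at h1 h2
  exact h1.resolve_left h2.2

theorem f7 (hij : i ≠ j) (h1 : X ∈ vF i j) (h2 : X ∉ vE i j) : sC i j ≤ X := by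
  simp only [vF, vE, LowerSet.mem_sup_iff, LowerSet.mem_Iic_iff] at h1 h2
  have h3 : X ≤ sC i j := h1.resolve_right h2
  obtain ⟨p, hp, hp2⟩ := exists_of_not_le h2
  have h4 := (mem_sC hij).1 (h3 hp)
  rw [mem_sG hij] at hp2
  have h5 : 1 ≤ (p i).val := by
    by_contra h
    exact hp2 (Or.inr ⟨by omega, by omega, h4.2.2⟩)
  have h6 : 1 ≤ (p j).val := by
    by_contra h
    exact hp2 (Or.inl ⟨by omega, by omega, h4.2.2⟩)
  have h7 : pt i j 1 1 ∈ X := X.lower (pt_le hij (by rw [val1]; omega)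
    (by rw [val1]; omega)) hp
  exact LowerSet.Iic_le.2 h7

theorem f8 (h1 : X ∈ vH i j) (h2 : X ∉ vG i j) : X ≤ sK i j := by
  simp only [vH, vG, LowerSet.mem_sup_iff, LowerSet.mem_Iic_iff, not_or] at h1 h2
  exact h1.resolve_left h2.1

theorem f9 (h2 : X ∉ vE i j) : (0 : Fin q → Fin (m + 3)) ∈ X := by
  simp only [vE, LowerSet.mem_Iic_iff] at h2
  obtain ⟨p, hp, -⟩ := exists_of_not_le h2
  exact X.lower (fun t => Fin.zero_le _) hp

end Pool.Agent.H292R3.Tr
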